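import Pool.Agent.W761.CP.Defs

/-!
# CP-LEV: existence of a wall with cutoffs for all levels
-/

set_option autoImplicit false

open MeasureTheory Set Filter Topology
open scoped ENNReal Manifold ContDiff

namespace Pool.Agent.W933.CP
open Pool.Agent.Helper209.CX (Ed)
open Pool.Agent.W761.CP

/-- smooth cutoff -/
lemma cutoff {d : ℕ} (K U : Set (Ed d)) (hK : IsCompact K) (hU : IsOpen U) (hKU : K ⊆ U) :
    ∃ (f : Ed d → ℝ) (N : Set (Ed d)), ContDiff ℝ ((⊤ : ℕ∞) : WithTop ℕ∞) f ∧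
      HasCompactSupport f ∧ tsupport f ⊆ U ∧ (∀ x, 0 ≤ f x) ∧ (∀ x, f x ≤ 1) ∧
      IsOpen N ∧ K ⊆ N ∧ ∀ x ∈ N, f x = 1 := by
  obtain ⟨L1, hL1, hKL1, hL1U⟩ := exists_compact_between hK hU hKU
  obtain ⟨L2, hL2, hL12, hL2U⟩ := exists_compact_between hL1 hU hL1U
  have hd : Disjoint (interior L2)ᶜ L1 := by
    rw [Set.disjoint_left]
    intro x hx hx1
    exact hx (hL12 hx1)
  obtain ⟨f, hf, hr, h0, h1⟩ := exists_contMDiff_zero_iff_one_iff_of_isClosed
    (modelWithCornersSelf ℝ (Ed d)) (isOpen_interior.isClosed_compl) hL1.isClosed hd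
  have hsup : Function.support f ⊆ L2 := by
    intro x hx
    by_contra hxL
    exact hx ((h0 x).1 (fun h => hxL (interior_subset h)))
  have hts : tsupport f ⊆ L2 := closure_minimal hsup hL2.isClosed
  refine ⟨f, interior L1, hf.contDiff, ?_, hts.trans hL2U, ?_, ?_, isOpen_interior, hKL1, ?_⟩
  · exact hL2.of_isClosed_subset (isClosed_tsupport f) hts
  · intro x
    exact (hr (mem_range_self x)).1
  · intro x
    exact (hr (mem_range_self x)).2
  · intro x hx
    exact (h1 x).1 (interior_subset hx)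

lemma mul_of {d : ℕ} (f : Ed d → ℝ) (h : ContDiff ℝ ((⊤ : ℕ∞) : WithTop ℕ∞) f)
    (hc : HasCompactSupport f) : Mul f := by
  refine ⟨h, 0, ?_⟩
  simpa using hc

/-- derivatives vanish where the function is locally constant -/
lemma loc_const {d : ℕ} (f : Ed d → ℝ) (N : Set (Ed d)) (hN : IsOpen N) (c : ℝ)
    (h : ∀ x ∈ N, f x = c) (x : Ed d) (hx : x ∈ N) :
    ¬ ((∃ k, pd k f x ≠ 0) ∨ lap f x ≠ 0) := by
  have h1 : ∀ y ∈ N, ∀ k, pd k f y = 0 := by
    intro y hy k
    unfold pd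
    have : f =ᶠ[𝓝 y] fun _ => c := by
      filter_upwards [hN.mem_nhds hy] with z hz using h z hz
    rw [this.fderiv_eq]
    simp
  have h2 : ∀ k, pd k (pd k f) x = 0 := by
    intro k
    unfold pd
    have : (fun z => fderiv ℝ f z (ev k)) =ᶠ[𝓝 x] fun _ => (0 : ℝ) := by
      filter_upwards [hN.mem_nhds hx] with z hz using h1 z hz k
    rw [this.fderiv_eq]
    simp
  push Not
  refine ⟨fun k => h1 x hx k, ?_⟩
  unfold lap
  exact Finset.sum_eq_zero fun k _ => h2 k

/-- the gradient is bounded -/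
lemma grad_bd {d : ℕ} (f : Ed d → ℝ) (h : ContDiff ℝ ((⊤ : ℕ∞) : WithTop ℕ∞) f)
    (hc : HasCompactSupport f) : ∃ B : ℝ, 0 < B ∧ ∀ x, ∑ k, pd k f x ^ 2 ≤ B := by
  have h1 : Continuous (fderiv ℝ f) := h.continuous_fderiv (by simp)
  obtain ⟨C, hC⟩ := h1.bounded_above_of_compact_support (hc.fderiv ℝ)
  refine ⟨d * C ^ 2 + 1, by positivity, fun x => ?_⟩
  have h2 : ∀ k ∈ (Finset.univ : Finset (Fin d)), pd k f x ^ 2 ≤ C ^ 2 := by
    intro k _
    have h3 : |pd k f x| ≤ C := by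
      unfold pd
      have h4 := (fderiv ℝ f x).le_opNorm (ev k)
      have h5 : ‖(ev k : Ed d)‖ = 1 := by
        unfold ev
        simp
      rw [h5, mul_one] at h4
      exact h4.trans (hC x)
    exact sq_le_sq' (by linarith [abs_le.1 h3]) (abs_le.1 h3).2
  calc ∑ k, pd k f x ^ 2 ≤ ∑ _k : Fin d, C ^ 2 := Finset.sum_le_sum h2
    _ = d * C ^ 2 := by simp
    _ ≤ d * C ^ 2 + 1 := by linarith

/-! ### the cube -/

lemma Gd_closed (d : ℕ) : IsClosed (Gd d) := by
  have : Gd d = ⋂ k : Fin d, {x : Ed d | 0 ≤ x k ∧ x k ≤ 1} := by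
    ext x; simp [Gd]
  rw [this]
  refine isClosed_iInter fun k => ?_
  have hc : Continuous fun x : Ed d => x k := by fun_prop
  exact (isClosed_le continuous_const hc).inter (isClosed_le hc continuous_const)

lemma Gd_compact (d : ℕ) : IsCompact (Gd d) := by
  refine Metric.isCompact_of_isClosed_isBounded (Gd_closed d) ?_
  refine (Metric.isBounded_closedBall (x := (0 : Ed d)) (r := Real.sqrt d)).subset ?_
  intro x hx
  rw [mem_closedBall_zero_iff, EuclideanSpace.norm_eq]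
  apply Real.sqrt_le_sqrt
  calc ∑ k, ‖x k‖ ^ 2 ≤ ∑ _k : Fin d, (1 : ℝ) := by
        refine Finset.sum_le_sum fun k _ => ?_
        have := hx k
        rw [Real.norm_eq_abs, sq_abs]
        nlinarith
    _ = d := by simp

lemma Gd_convex (d : ℕ) : Convex ℝ (Gd d) := by
  intro x hx y hy a b ha hb hab k
  have h1 := hx k
  have h2 := hy k
  have h3 : (a • x + b • y) k = a * x k + b * y k := by simp
  rw [h3]
  constructor
  · nlinarith
  · nlinarith

lemma Q0_sub (d : ℕ) : Q0 d ⊆ interior (Gd d) := by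
  have h1 : IsOpen {x : Ed d | ∀ k, 0 < x k ∧ x k < 1} := by
    have : {x : Ed d | ∀ k, 0 < x k ∧ x k < 1} = ⋂ k : Fin d, {x : Ed d | 0 < x k ∧ x k < 1} := by
      ext x; simp
    rw [this]
    refine isOpen_iInter_of_finite fun k => ?_
    have hc : Continuous fun x : Ed d => x k := by fun_prop
    exact (isOpen_lt continuous_const hc).inter (isOpen_lt hc continuous_const)
  have h2 : {x : Ed d | ∀ k, 0 < x k ∧ x k < 1} ⊆ interior (Gd d) :=
    interior_maximal (fun x hx k => ⟨(hx k).1.le, (hx k).2.le⟩) h1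
  intro x hx
  apply h2
  intro k
  have := hx k
  constructor <;> linarith

lemma Q0_closed (d : ℕ) : IsClosed (Q0 d) := by
  have : Q0 d = ⋂ k : Fin d, {x : Ed d | 1 / 4 ≤ x k ∧ x k ≤ 3 / 4} := by
    ext x; simp [Q0]
  rw [this]
  refine isClosed_iInter fun k => ?_
  have hc : Continuous fun x : Ed d => x k := by fun_prop
  exact (isClosed_le continuous_const hc).inter (isClosed_le hc continuous_const)

/-! ### the wall -/

/-- a sequence of neighbourhoods -/
lemma seqA {d : ℕ} (K Q : Set (Ed d)) (hK : IsCompact K) (hK0 : volume K = 0) (hQ : IsClosed Q)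
    (hKQ : Disjoint K Q) : ∃ (A : ℕ → Set (Ed d)) (R : ℝ), (∀ n, IsOpen (A n)) ∧
      (∀ n, K ⊆ A n) ∧ Antitone A ∧ (∀ n, volume (A n) ≤ ENNReal.ofReal ((1 / 2) ^ n)) ∧
      (∀ x, (∀ n, x ∈ A n) → x ∈ K) ∧ (∀ x ∈ Q, x ∉ A 0) ∧ ∀ x, R < ‖x‖ → x ∉ A 0 := by
  obtain ⟨R, hR⟩ := hK.isBounded.subset_ball (0 : Ed d)
  have h1 : ∀ n : ℕ, ∃ U : Set (Ed d), U ⊇ K ∧ IsOpen U ∧
      volume U < ENNReal.ofReal ((1 / 2) ^ n) := by
    intro n
    have : volume K < ENNReal.ofReal ((1 / 2) ^ n) := by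
      rw [hK0, ENNReal.ofReal_pos]; positivity
    exact K.exists_isOpen_lt_of_lt _ this
  choose U hUK hUo hUv using h1
  refine ⟨fun n => (⋂ j ∈ Finset.range (n + 1), (U j ∩ Metric.thickening (1 / ((j : ℝ) + 1)) K)) ∩
    (Qᶜ ∩ Metric.ball 0 R), R, ?_, ?_, ?_, ?_, ?_, ?_, ?_⟩
  · intro n
    refine IsOpen.inter ?_ (hQ.isOpen_compl.inter Metric.isOpen_ball)
    exact isOpen_biInter_finset fun j _ => (hUo j).inter Metric.isOpen_thickening
  · intro n x hx
    refine ⟨?_, ?_, hR hx⟩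
    · simp only [mem_iInter]
      intro j _
      exact ⟨hUK j hx, Metric.self_subset_thickening (by positivity) K hx⟩
    · exact fun h => Set.disjoint_left.1 hKQ hx h
  · intro m n hmn x hx
    refine ⟨?_, hx.2⟩
    have hx1 := hx.1
    simp only [mem_iInter] at hx1 ⊢
    intro j hj
    refine hx1 j ?_
    rw [Finset.mem_range] at hj ⊢
    omega
  · intro n
    refine le_trans (measure_mono ?_) (hUv n).le
    intro x hx
    have := hx.1
    simp only [mem_iInter] at this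
    exact (this n (Finset.mem_range.2 (by omega))).1
  · intro x hx
    have h2 : x ∈ closure K := by
      rw [Metric.mem_closure_iff]
      intro ε hε
      obtain ⟨n, hn⟩ := exists_nat_one_div_lt hε
      have := (hx n).1
      simp only [mem_iInter] at this
      have h3 := (this n (Finset.mem_range.2 (by omega))).2
      rw [Metric.mem_thickening_iff] at h3
      obtain ⟨z, hz, hxz⟩ := h3
      exact ⟨z, hz, hxz.trans hn⟩
    rwa [hK.isClosed.closure_eq] at h2
  · intro x hx h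
    exact h.2.1 hx
  · intro x hx h
    have := h.2.2
    rw [mem_ball_zero_iff] at this
    linarith

open Classical in
/-- the wall -/
noncomputable def WW {d : ℕ} (A : ℕ → Set (Ed d)) (x : Ed d) : ℝ :=
  (∑' n : ℕ, (A n).indicator (fun _ => (1 : ℝ≥0∞)) x).toReal

lemma WW_meas {d : ℕ} (A : ℕ → Set (Ed d)) (hA : ∀ n, IsOpen (A n)) : Measurable (WW A) := by
  unfold WW
  exact (Measurable.tsum fun n => measurable_const.indicator (hA n).measurableSet).ennreal_toReal

lemma WW_nonneg {d : ℕ} (A : ℕ → Set (Ed d)) (x : Ed d) : 0 ≤ WW A x := ENNReal.toReal_nonneg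

/-- the value -/
lemma WW_val {d : ℕ} (A : ℕ → Set (Ed d)) (hA : Antitone A) (x : Ed d) (m : ℕ)
    (h1 : ∀ j < m, x ∈ A j) (h2 : x ∉ A m) : WW A x = m := by
  unfold WW
  have h3 : ∀ n ∉ Finset.range m, (A n).indicator (fun _ => (1 : ℝ≥0∞)) x = 0 := by
    intro n hn
    rw [Finset.mem_range, not_lt] at hn
    exact indicator_of_notMem (fun h => h2 (hA hn h)) _
  rw [tsum_eq_sum h3]
  have h4 : ∑ n ∈ Finset.range m, (A n).indicator (fun _ => (1 : ℝ≥0∞)) x = m := by
    rw [Finset.sum_congr rfl fun n hn => indicator_of_mem (h1 n (Finset.mem_range.1 hn)) _]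
    simp
  rw [h4]
  simp

lemma WW_cases {d : ℕ} (A : ℕ → Set (Ed d)) (hA : Antitone A) (x : Ed d) :
    WW A x = 0 ∨ ∃ m : ℕ, WW A x = (m + 1 : ℕ) ∧ x ∈ A m := by
  classical
  by_cases h : ∃ n, x ∉ A n
  · have h1 := WW_val A hA x (Nat.find h) (fun j hj => by
      have := Nat.find_min h hj
      push Not at this
      exact this) (Nat.find_spec h)
    rcases Nat.eq_zero_or_pos (Nat.find h) with h0 | h0
    · left; rw [h1, h0]; simp
    · right
      refine ⟨Nat.find h - 1, ?_, ?_⟩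
      · rw [h1]; congr 1; omega
      · have := Nat.find_min h (m := Nat.find h - 1) (by omega)
        push Not at this
        exact this
  · left
    push Not at h
    unfold WW
    have : (∑' n : ℕ, (A n).indicator (fun _ => (1 : ℝ≥0∞)) x) = ⊤ := by
      have h1 : ∀ n, (A n).indicator (fun _ => (1 : ℝ≥0∞)) x = 1 := fun n =>
        indicator_of_mem (h n) _
      simp_rw [h1]
      exact ENNReal.tsum_const_eq_top_of_ne_zero one_ne_zero
    rw [this]; simp

/-- large near the boundary -/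
lemma WW_large {d : ℕ} (A : ℕ → Set (Ed d)) (hA : Antitone A) (x : Ed d) (n : ℕ) (h : x ∈ A n)
    (h2 : ¬ ∀ j, x ∈ A j) : ((n + 1 : ℕ) : ℝ) ≤ WW A x := by
  classical
  push Not at h2
  have h1 := WW_val A hA x (Nat.find h2) (fun j hj => by
    have := Nat.find_min h2 hj
    push Not at this
    exact this) (Nat.find_spec h2)
  rw [h1]
  have h3 : n < Nat.find h2 := by
    by_contra hcon
    push Not at hcon
    exact Nat.find_spec h2 (hA hcon h)
  exact_mod_cast h3

lemma sum_fin (p : ℝ) (hp : 1 ≤ p) :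
    ∑' n : ℕ, ((n + 1 : ℕ) : ℝ≥0∞) ^ p * ENNReal.ofReal ((1 / 2) ^ n) ≠ ⊤ := by
  obtain ⟨k, hk⟩ := exists_nat_ge p
  have h1 : ∀ n : ℕ, ((n + 1 : ℕ) : ℝ≥0∞) ^ p * ENNReal.ofReal ((1 / 2) ^ n) ≤
      ENNReal.ofReal (2 * (((n + 1 : ℕ) : ℝ) ^ k * (1 / 2) ^ (n + 1))) := by
    intro n
    have h2 : ((n + 1 : ℕ) : ℝ≥0∞) ^ p ≤ ((n + 1 : ℕ) : ℝ≥0∞) ^ (k : ℝ) :=
      ENNReal.rpow_le_rpow_of_exponent_le (by exact_mod_cast (by omega : 1 ≤ n + 1)) hk
    have h3 : (2 * (((n + 1 : ℕ) : ℝ) ^ k * (1 / 2) ^ (n + 1))) =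
        ((n + 1 : ℕ) : ℝ) ^ k * (1 / 2) ^ n := by
      rw [pow_succ]; ring
    have h4 : ENNReal.ofReal (((n + 1 : ℕ) : ℝ) ^ k) = ((n + 1 : ℕ) : ℝ≥0∞) ^ (k : ℝ) := by
      rw [ENNReal.ofReal_pow (by positivity), ENNReal.ofReal_natCast, ENNReal.rpow_natCast]
    rw [h3, ENNReal.ofReal_mul (by positivity), h4]
    gcongr
  refine ne_top_of_le_ne_top ?_ (ENNReal.tsum_le_tsum h1)
  have h4 : Summable (fun n : ℕ => (n : ℝ) ^ k * (1 / 2 : ℝ) ^ n) :=
    summable_pow_mul_geometric_of_norm_lt_one k (by norm_num)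
  have h5 : Summable (fun n : ℕ => 2 * (((n + 1 : ℕ) : ℝ) ^ k * (1 / 2 : ℝ) ^ (n + 1))) :=
    ((summable_nat_add_iff 1).2 h4).mul_left 2
  exact h5.tsum_ofReal_ne_top

lemma WW_Lp {d : ℕ} (A : ℕ → Set (Ed d)) (hA : Antitone A) (hAo : ∀ n, IsOpen (A n))
    (hv : ∀ n, volume (A n) ≤ ENNReal.ofReal ((1 / 2) ^ n)) (p : ℝ) (hp : 1 ≤ p) :
    MemLp (fun x => (WW A x : ℂ)) (ENNReal.ofReal p) volume := by
  have hm := WW_meas A hAo
  refine ⟨(Complex.measurable_ofReal.comp hm).aestronglyMeasurable, ?_⟩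
  have hp0 : ENNReal.ofReal p ≠ 0 := by
    rw [Ne, ENNReal.ofReal_eq_zero]; linarith
  rw [eLpNorm_lt_top_iff_lintegral_rpow_enorm_lt_top hp0 ENNReal.ofReal_ne_top,
    ENNReal.toReal_ofReal (by linarith)]
  have h1 : ∀ x, ‖(WW A x : ℂ)‖ₑ ^ p ≤
      ∑' n : ℕ, ((n + 1 : ℕ) : ℝ≥0∞) ^ p * (A n).indicator (fun _ => (1 : ℝ≥0∞)) x := by
    intro x
    rcases WW_cases A hA x with h | ⟨m, hm1, hm2⟩
    · rw [h]
      simp only [Complex.ofReal_zero, enorm_zero]
      rw [ENNReal.zero_rpow_of_pos (by linarith)]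
      exact zero_le
    · have h2 : ‖(WW A x : ℂ)‖ₑ = ((m + 1 : ℕ) : ℝ≥0∞) := by
        rw [hm1]
        rw [← ofReal_norm]
        simp only [Complex.ofReal_natCast, Complex.norm_natCast, ENNReal.ofReal_natCast]
      rw [h2]
      refine le_trans (le_of_eq ?_) (ENNReal.le_tsum m)
      rw [indicator_of_mem hm2, mul_one]
  refine lt_of_le_of_lt (lintegral_mono h1) ?_
  have hmeas : ∀ n : ℕ, Measurable fun x => ((n + 1 : ℕ) : ℝ≥0∞) ^ p *
      (A n).indicator (fun _ => (1 : ℝ≥0∞)) x := fun n =>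
    (measurable_const.indicator (hAo n).measurableSet).const_mul _
  rw [lintegral_tsum (fun n => (hmeas n).aemeasurable)]
  refine lt_of_le_of_lt (ENNReal.tsum_le_tsum (g := fun n : ℕ => ((n + 1 : ℕ) : ℝ≥0∞) ^ p *
    ENNReal.ofReal ((1 / 2) ^ n)) fun n => ?_) (lt_top_iff_ne_top.2 (sum_fin p hp))
  rw [lintegral_const_mul _ (measurable_const.indicator (hAo n).measurableSet),
    lintegral_indicator_const (hAo n).measurableSet, one_mul]
  exact mul_le_mul_right (hv n) _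

theorem lev : S_LEV := by
  intro d hd
  have hKc : IsCompact (frontier (Gd d)) :=
    (Gd_compact d).of_isClosed_subset isClosed_frontier (Gd_closed d).frontier_subset
  have hK0 : volume (frontier (Gd d)) = 0 := (Gd_convex d).addHaar_frontier _
  have hKQ : Disjoint (frontier (Gd d)) (Q0 d) := by
    rw [Set.disjoint_left]
    intro x hx hq
    exact hx.2 (Q0_sub d hq)
  obtain ⟨A, R, hAo, hKA, hAa, hAv, hAK, hAQ, hAR⟩ :=
    seqA (frontier (Gd d)) (Q0 d) hKc hK0 (Q0_closed d) hKQ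
  refine ⟨WW A, WW_meas A hAo, WW_nonneg A, fun x hx => ?_, ⟨R, fun x hx => ?_⟩,
    WW_Lp A hAa hAo hAv, fun M hM => ?_⟩
  · have := WW_val A hAa x 0 (fun j hj => absurd hj (Nat.not_lt_zero j)) (hAQ x hx)
    simpa using this
  · have := WW_val A hAa x 0 (fun j hj => absurd hj (Nat.not_lt_zero j)) (hAR x hx)
    simpa using this
  obtain ⟨n, hn⟩ := exists_nat_ge M
  have hlarge : ∀ x ∈ A n, x ∉ frontier (Gd d) → M ≤ WW A x := by
    intro x hx hxK
    have h1 := WW_large A hAa x n hx (fun h => hxK (hAK x h))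
    refine le_trans (hn.trans ?_) h1
    push_cast; linarith
  -- chi
  set K1 : Set (Ed d) := Gd d \ A n with hK1
  have hK1c : IsCompact K1 := (Gd_compact d).diff (hAo n)
  have hK1i : K1 ⊆ interior (Gd d) := by
    intro x hx
    by_contra hxi
    exact hx.2 (hKA n ⟨subset_closure hx.1, hxi⟩)
  have hint : ∀ x ∈ interior (Gd d), x ∉ K1 → x ∈ A n := by
    intro x hx hx1
    by_contra h
    exact hx1 ⟨interior_subset hx, h⟩
  have hQK1 : Q0 d ⊆ K1 := by
    intro x hx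
    exact ⟨interior_subset (Q0_sub d hx), fun h => hAQ x hx (hAa (Nat.zero_le n) h)⟩
  obtain ⟨χ, N, hχs, hχc, hχt, hχ0, hχ1, hNo, hKN, hN1⟩ :=
    cutoff K1 (interior (Gd d)) hK1c isOpen_interior hK1i
  -- b
  set K2 : Set (Ed d) := tsupport χ \ N with hK2
  have hK2c : IsCompact K2 := IsCompact.diff hχc hNo
  have hK2s : K2 ⊆ A n ∩ interior (Gd d) := by
    intro x hx
    have h1 := hχt hx.1
    exact ⟨hint x h1 (fun h => hx.2 (hKN h)), h1⟩
  obtain ⟨b, N', hbs, hbc, hbt, hb0, hb1, hNo', hKN', hN1'⟩ :=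
    cutoff K2 (A n ∩ interior (Gd d)) hK2c ((hAo n).inter isOpen_interior) hK2s
  -- phi
  have hGd : Gd d ⊆ interior (Gd d) ∪ A n := by
    intro x hx
    by_cases h : x ∈ interior (Gd d)
    · exact Or.inl h
    · exact Or.inr (hKA n ⟨subset_closure hx, h⟩)
  obtain ⟨φ, N'', hφs, hφc, hφt, hφ0, hφ1, hNo'', hKN'', hN1''⟩ :=
    cutoff (Gd d) (interior (Gd d) ∪ A n) (Gd_compact d) (isOpen_interior.union (hAo n)) hGd
  obtain ⟨B, hB, hBb⟩ := grad_bd b hbs hbc
  have hsupp : ∀ (f : Ed d → ℝ) (x : Ed d), f x ≠ 0 → x ∈ tsupport f := fun f x hx =>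
    subset_tsupport f hx
  refine ⟨χ, b, φ, Real.sqrt (M / 4 / B), ?_⟩
  refine
    { χm := mul_of χ hχs hχc
      χc := hχc
      χ0 := hχ0
      χ1 := hχ1
      χG := fun x hx => interior_subset (hχt (hsupp χ x hx))
      χQ := fun x hx => hN1 x (hKN (hQK1 hx))
      bm := mul_of b hbs hbc
      bc := hbc
      b0 := hb0
      b1 := hb1
      bW := ?_
      bχ := ?_
      φm := mul_of φ hφs hφc
      φc := hφc
      φ0 := hφ0
      φ1 := hφ1
      φG := fun x hx => hN1'' x (hKN'' hx)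
      φW := ?_
      apos := Real.sqrt_pos.2 (by positivity)
      ab := ?_ }
  · intro x hx
    have h1 := hbt (hsupp b x hx)
    exact hlarge x h1.1 (fun h => h.2 h1.2)
  · intro x hx
    apply hN1' x
    apply hKN'
    constructor
    · by_contra hxs
      refine loc_const χ (tsupport χ)ᶜ (isClosed_tsupport χ).isOpen_compl 0 ?_ x hxs hx
      intro y hy
      exact image_eq_zero_of_notMem_tsupport hy
    · intro hxN
      exact loc_const χ N hNo 1 hN1 x hxN hx
  · have hae : ∀ᵐ x : Ed d, x ∉ frontier (Gd d) := by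
      rw [ae_iff]
      simpa using hK0
    filter_upwards [hae] with x hxK hx hχx
    have hx1 : x ∉ K1 := fun h => hχx (hN1 x (hKN h))
    have hxA : x ∈ A n := by
      rcases hφt (hsupp φ x hx) with h | h
      · exact hint x h hx1
      · exact h
    exact hlarge x hxA hxK
  · intro x
    rw [Real.sq_sqrt (by positivity)]
    have h1 := hBb x
    have h2 : 0 ≤ M / 4 / B := by positivity
    calc M / 4 / B * ∑ k, pd k b x ^ 2 ≤ M / 4 / B * B := mul_le_mul_of_nonneg_left h1 h2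
      _ = M / 4 := by field_simp

end Pool.Agent.W933.CP
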